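import Pool.Agent.Q183.AR.NvMain

/-!
# MP_a95293_nt: the n-term abc inequality along linear recurrences
-/

set_option autoImplicit false

namespace Pool.Agent.Results.MP_a95293_nt.AlongRecurrences

open Pool.Agent.Q183.AR

variable {n : ℕ} {J : Type} [Fintype J]

/-- the admissible tuples of the problem -/
def Admissible (x : Fin n → ℤ) : Prop :=
  Finset.univ.gcd x = 1 ∧ ∑ i, x i = 0 ∧
    ∀ S : Finset (Fin n), S.Nonempty → S ≠ Finset.univ → ∑ i ∈ S, x i ≠ 0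

/-- the product of the primes dividing `m` -/
def rad (m : ℤ) : ℕ := ∏ p ∈ m.natAbs.primeFactors, p

/-- the exponent `M_n`: `1, 3, 6, 12, 22, ...` for `n = 3, 4, 5, 6, 7, ...` -/
def M (n : ℕ) : ℕ := if n ≤ 4 then (n - 1).choose 2 else (n - 1).choose 3 + 2

/-- the tuple `x_i(t) = κ_i μ_i ^ t ∏ g_j(t) ^ e_ij` -/
def x (κ μ : Fin n → ℤ) (g : J → ℕ → ℤ) (e : Fin n → J → ℕ) (t : ℕ) (i : Fin n) : ℤ :=
  κ i * μ i ^ t * ∏ j, g j t ^ e i j

/-- the product `Q(t)` of the bases which occur -/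
def bases (g : J → ℕ → ℤ) (e : Fin n → J → ℕ) (t : ℕ) : ℤ :=
  ∏ j ∈ Finset.univ.filter (fun j => (Finset.univ.sup fun i => e i j) ≠ 0), g j t

/-- The two inequalities with the constant `C`. -/
def Good (κ μ : Fin n → ℤ) (g : J → ℕ → ℤ) (e : Fin n → J → ℕ) (C : ℝ) (s : ℕ) : Prop :=
  (∀ i, |(x κ μ g e s i : ℝ)| ≤ C * |(bases g e s : ℝ)| ^ M n) ∧
  (Squarefree (bases g e s) → ∀ i, |(x κ μ g e s i : ℝ)| ≤
    C * (rad (∏ k, x κ μ g e s k) : ℝ) ^ M n)

theorem bases_le {κ μ : Fin n → ℤ} {g : J → ℕ → ℤ} {e : Fin n → J → ℕ} {s : ℕ}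
    (h : ∀ i, x κ μ g e s i ≠ 0) (hsq : Squarefree (bases g e s)) :
    |(bases g e s : ℝ)| ≤ rad (∏ k, x κ μ g e s k) := by
  classical
  have h1 : (bases g e s).natAbs = ∏ p ∈ (bases g e s).natAbs.primeFactors, p :=
    (Nat.prod_primeFactors_of_squarefree (Int.squarefree_natAbs.2 hsq)).symm
  have h2 : (bases g e s).natAbs.primeFactors ⊆ (∏ k, x κ μ g e s k).natAbs.primeFactors := by
    intro p hp
    have hp1 := Nat.prime_of_mem_primeFactors hp
    have hp2 : (p : ℤ) ∣ bases g e s := Int.natCast_dvd.2 (Nat.dvd_of_mem_primeFactors hp)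
    refine Nat.mem_primeFactors.2 ⟨hp1, Int.natCast_dvd.1 ?_,
      Int.natAbs_ne_zero.2 (Finset.prod_ne_zero_iff.2 fun k _ => h k)⟩
    unfold bases at hp2
    obtain ⟨j, hj, hpj⟩ := (Nat.prime_iff_prime_int.1 hp1).exists_mem_finset_dvd hp2
    obtain ⟨i, hi⟩ : ∃ i, e i j ≠ 0 := by
      by_contra hcon
      push Not at hcon
      exact (Finset.mem_filter.1 hj).2 ((Finset.sup_eq_bot_iff _ _).2 fun i _ => hcon i)
    exact (hpj.trans (dvd_T κ μ g hi)).trans (Finset.dvd_prod_of_mem _ (Finset.mem_univ i))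
  have h3 : (bases g e s).natAbs ≤ rad (∏ k, x κ μ g e s k) := by
    rw [h1]
    unfold rad
    exact Finset.prod_le_prod_of_subset_of_one_le' h2 fun p hp _ =>
      (Nat.prime_of_mem_primeFactors hp).one_lt.le
  calc |(bases g e s : ℝ)| = ((bases g e s).natAbs : ℝ) := by rw [Nat.cast_natAbs]; push_cast; rfl
    _ ≤ _ := by exact_mod_cast h3

theorem M_eq (n : ℕ) : FF n = M n := by
  unfold M
  rcases Nat.lt_or_ge n 5 with h | h
  · interval_cases n <;> decide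
  · rw [if_neg (by omega)]
    exact FF_eq n h

theorem result (n : ℕ) (hn : 2 ≤ n) (g : J → ℕ → ℤ)
    (hg : ∀ j, ∃ E : LinearRecurrence ℤ, E.IsSolution (g j))
    (κ μ : Fin n → ℤ) (hμ : ∀ i, μ i ≠ 0) (e : Fin n → J → ℕ) (η : ℝ) (hη : 0 < η) :
    ∃ (C : ℝ) (N z : ℕ), ∀ t m : ℕ, z ≤ t → N ≤ m →
      (({s | t ≤ s ∧ s < t + m ∧ Admissible (x κ μ g e s) ∧ ¬ Good κ μ g e C s}.ncard : ℕ) : ℝ) ≤
        η * m := by
  classical
  obtain ⟨C, N, z, hC, h⟩ := nv g hg κ μ hμ e η hη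
  refine ⟨C, N, z, fun t m ht hm => le_trans ?_ (h t m ht hm)⟩
  have h1 : {s | t ≤ s ∧ s < t + m ∧ Admissible (x κ μ g e s) ∧ ¬ Good κ μ g e C s} ⊆
      {s | t ≤ s ∧ s < t + m ∧ ¬ (∑ i, T κ μ g e i s = 0 → (∀ i, T κ μ g e i s ≠ 0) →
        (∀ S : Finset (Fin n), S.Nonempty → S ≠ Finset.univ → ∑ i ∈ S, T κ μ g e i s ≠ 0) →
        ∀ i, |(T κ μ g e i s : ℝ)| ≤ C * (∏ j ∈ occ e, |(g j s : ℝ)|) ^ FF n *
        ((Finset.univ.gcd fun i => T κ μ g e i s : ℤ) : ℝ))} := by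
    rintro s ⟨h2, h3, ⟨h4, h5, h6⟩, h7⟩
    refine ⟨h2, h3, fun h8 => h7 ?_⟩
    have hne : ∀ i, x κ μ g e s i ≠ 0 := by
      intro i
      have h9 := h6 {i} (Finset.singleton_nonempty i) (by
        intro h10
        have h11 := congrArg Finset.card h10
        rw [Finset.card_singleton, Finset.card_univ, Fintype.card_fin] at h11
        omega)
      rwa [Finset.sum_singleton] at h9
    have h9 := h8 h5 hne h6
    have hgcd : Finset.univ.gcd (fun i => T κ μ g e i s) = 1 := h4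
    have hb : ∏ j ∈ occ e, |(g j s : ℝ)| = |(bases g e s : ℝ)| := by
      unfold bases occ E
      rw [Int.cast_prod, Finset.abs_prod]
    rw [hgcd, hb, M_eq] at h9
    simp only [Int.cast_one, mul_one] at h9
    exact ⟨h9, fun hsq i => (h9 i).trans (mul_le_mul_of_nonneg_left
      (pow_le_pow_left₀ (abs_nonneg _) (bases_le hne hsq) _) hC.le)⟩
  exact_mod_cast Set.ncard_le_ncard h1 ((Set.finite_Ico t (t + m)).subset fun _ hs => ⟨hs.1, hs.2.1⟩)

end Pool.Agent.Results.MP_a95293_nt.AlongRecurrences
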