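import Pool.Agent.Q154.MA.Strip

/-!
# The metric `n`-term abc theorem, with its exact exponent

For a tuple `a` of `n` nonzero integers let `rad a` be the radical of the product of its entries.
For almost every real `m × n` matrix `A` one has, for every `ε > 0`,

`‖A a‖ ^ m * rad a ≥ c ‖a‖ ^ (m - ε)`    (`c > 0` depending only on `A` and `ε`)

for ALL tuples of nonzero integers `a`.  The exponent is optimal.  With `m = 1`: for almost every
coefficient vector `α` the `n`-term abc conjecture holds with the exponent `1 + ε`, for every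
number `n` of terms, and even without any coprimality condition: `|∑ α_j a_j| ≤ K` forces
`max |a_j| ≤ C (rad a) ^ (1 + ε)`.
-/

set_option autoImplicit false

open Finset MeasureTheory
open scoped ENNReal

namespace Pool.Agent.Results.MP_a95293_nt.MetricNTerm

open Pool.Agent.Q154.MA

/-- The radical of the product of the entries of a tuple of integers. -/
def radical {n : ℕ} (a : Fin n → ℤ) : ℕ := ∏ p ∈ (∏ j, a j).natAbs.primeFactors, p

/-- The vector `A a`. -/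
def app {m n : ℕ} (A : Fin m → Fin n → ℝ) (a : Fin n → ℤ) : Fin m → ℝ :=
  fun i => ∑ j, A i j * (a j : ℝ)

/-! ## From tuples of integers to tuples of positive integers with signs -/

lemma natAbs_prod {n : ℕ} (a : Fin n → ℤ) : (∏ j, a j).natAbs = ∏ j, (a j).natAbs := by
  induction n with
  | zero => simp
  | succ n ih =>
    rw [Fin.prod_univ_succ, Fin.prod_univ_succ, Int.natAbs_mul, ih]

lemma radical_eq {n : ℕ} (a : Fin n → ℤ) : radical a = radT fun j => (a j).natAbs := by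
  unfold radical radT rad
  rw [natAbs_prod]

lemma norm_eq_hgt {n : ℕ} (a : Fin (n + 1) → ℤ) :
    ‖a‖ = (hgt fun j => (a j).natAbs : ℕ) := by
  refine le_antisymm ?_ ?_
  · rw [pi_norm_le_iff_of_nonneg (Nat.cast_nonneg _)]
    intro j
    rw [Int.norm_eq_abs]
    have h1 : ((a j).natAbs : ℝ) = |(a j : ℝ)| := by
      rw [Nat.cast_natAbs, Int.cast_abs]
    rw [← h1]
    exact_mod_cast le_hgt (fun j => (a j).natAbs) j
  · obtain ⟨k, hk⟩ := exists_hgt fun j => (a j).natAbs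
    rw [← hk]
    have h1 : ((a k).natAbs : ℝ) = |(a k : ℝ)| := by
      rw [Nat.cast_natAbs, Int.cast_abs]
    rw [h1, ← Int.norm_eq_abs]
    exact norm_le_pi_norm a k

/-- the sign vectors -/
def sgn {n : ℕ} (t : Fin n → Bool) : Fin n → ℝ := fun i => if t i then 1 else -1

lemma sgn_abs {n : ℕ} (t : Fin n → Bool) (i : Fin n) : |sgn t i| = 1 := by
  unfold sgn
  split_ifs <;> simp

lemma sgn_mul {n : ℕ} (a : Fin n → ℤ) (j : Fin n) :
    (a j : ℝ) = sgn (fun i => decide (0 ≤ a i)) j * ((a j).natAbs : ℝ) := by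
  unfold sgn
  rw [Nat.cast_natAbs, Int.cast_abs]
  by_cases h : 0 ≤ a j
  · simp only [h, decide_true, if_true, one_mul]
    rw [abs_of_nonneg]
    exact_mod_cast h
  · simp only [h, decide_false, Bool.false_eq_true, if_false]
    have : (a j : ℝ) < 0 := by exact_mod_cast (not_le.1 h)
    rw [abs_of_neg this]
    ring

/-! ## The lower bound -/

/-- The inequality asserted for a single matrix. -/
def Good {m n : ℕ} (A : Fin m → Fin n → ℝ) : Prop :=
  ∀ ε : ℝ, 0 < ε → ∃ c : ℝ, 0 < c ∧ ∀ a : Fin n → ℤ, (∀ j, a j ≠ 0) →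
    c * ‖a‖ ^ ((m : ℝ) - ε) ≤ ‖app A a‖ ^ m * radical a

lemma good_of {m n : ℕ} (A : Fin m → Fin (n + 1) → ℝ)
    (h1 : ∀ N : ℕ, ∀ t : Fin (n + 1) → Bool, {b : Fin (n + 1) → ℕ | (∀ j, b j ≠ 0) ∧
        ‖fun i => ∑ j, A i j * (sgn t j * b j)‖ ^ m * radT b <
          (hgt b : ℝ) ^ ((m : ℝ) - 1 / ((N : ℝ) + 1))}.Finite)
    (h2 : ∀ t : Fin (n + 1) → Bool, ∀ b : Fin (n + 1) → ℕ, (∀ j, b j ≠ 0) →
      0 < ‖fun i => ∑ j, A i j * (sgn t j * b j)‖) : Good A := by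
  classical
  intro ε hε
  obtain ⟨N, hN⟩ := exists_nat_one_div_lt hε
  -- the constant for one sign vector
  have key : ∀ t : Fin (n + 1) → Bool, ∃ c : ℝ, 0 < c ∧ ∀ b : Fin (n + 1) → ℕ, (∀ j, b j ≠ 0) →
      c * (hgt b : ℝ) ^ ((m : ℝ) - 1 / ((N : ℝ) + 1)) ≤
        ‖fun i => ∑ j, A i j * (sgn t j * b j)‖ ^ m * radT b := by
    intro t
    obtain ⟨f, hf⟩ : ∃ f : (Fin (n + 1) → ℕ) → ℝ, f = fun b =>
      ‖fun i => ∑ j, A i j * (sgn t j * b j)‖ ^ m * radT b /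
        (hgt b : ℝ) ^ ((m : ℝ) - 1 / ((N : ℝ) + 1)) := ⟨_, rfl⟩
    have hpos : ∀ b : Fin (n + 1) → ℕ, (∀ j, b j ≠ 0) →
        0 < (hgt b : ℝ) ^ ((m : ℝ) - 1 / ((N : ℝ) + 1)) := by
      intro b hb
      have h3 : 0 < hgt b := lt_of_lt_of_le (Nat.pos_of_ne_zero (hb 0)) (le_hgt b 0)
      have h4 : (0 : ℝ) < hgt b := by exact_mod_cast h3
      positivity
    have hfpos : ∀ b : Fin (n + 1) → ℕ, (∀ j, b j ≠ 0) → 0 < f b := by
      intro b hb
      rw [hf]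
      simp only
      have h3 : 0 < radT b := rad_pos _
      have h4 : (0 : ℝ) < radT b := by exact_mod_cast h3
      exact div_pos (mul_pos (pow_pos (h2 t b hb) m) h4) (hpos b hb)
    have hfin := h1 N t
    refine ⟨∏ b ∈ hfin.toFinset, min 1 (f b), ?_, ?_⟩
    · refine Finset.prod_pos fun b hb => ?_
      rw [Set.Finite.mem_toFinset] at hb
      exact lt_min one_pos (hfpos b hb.1)
    · intro b hb
      have hle1 : ∏ b ∈ hfin.toFinset, min 1 (f b) ≤ 1 := by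
        refine Finset.prod_le_one (fun b hb => ?_) fun b _ => min_le_left _ _
        rw [Set.Finite.mem_toFinset] at hb
        exact (lt_min one_pos (hfpos b hb.1)).le
      have hle : ∏ b ∈ hfin.toFinset, min 1 (f b) ≤ f b := by
        by_cases hmem : b ∈ hfin.toFinset
        · rw [← Finset.mul_prod_erase _ _ hmem]
          have h5 : ∏ b ∈ hfin.toFinset.erase b, min 1 (f b) ≤ 1 := by
            refine Finset.prod_le_one (fun b' hb' => ?_) fun b _ => min_le_left _ _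
            have hb'' := Finset.mem_of_mem_erase hb'
            rw [Set.Finite.mem_toFinset] at hb''
            exact (lt_min one_pos (hfpos b' hb''.1)).le
          have h6 : 0 ≤ min 1 (f b) := (lt_min one_pos (hfpos b hb)).le
          calc min 1 (f b) * ∏ b ∈ hfin.toFinset.erase b, min 1 (f b) ≤ min 1 (f b) * 1 :=
                mul_le_mul_of_nonneg_left h5 h6
            _ ≤ f b := by rw [mul_one]; exact min_le_right _ _
        · rw [Set.Finite.mem_toFinset, Set.mem_ofPred_eq] at hmem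
          have h7 : (hgt b : ℝ) ^ ((m : ℝ) - 1 / ((N : ℝ) + 1)) ≤
              ‖fun i => ∑ j, A i j * (sgn t j * b j)‖ ^ m * radT b := by
            by_contra hcon
            exact hmem ⟨hb, not_le.1 hcon⟩
          refine hle1.trans ?_
          rw [hf]
          exact (one_le_div (hpos b hb)).2 h7
      have hfb : f b = ‖fun i => ∑ j, A i j * (sgn t j * b j)‖ ^ m * radT b /
        (hgt b : ℝ) ^ ((m : ℝ) - 1 / ((N : ℝ) + 1)) := by rw [hf]
      rw [hfb] at hle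
      exact (le_div_iff₀ (hpos b hb)).1 hle
  choose c hc hcb using key
  refine ⟨∏ t, min 1 (c t), Finset.prod_pos fun t _ => lt_min one_pos (hc t), ?_⟩
  intro a ha
  obtain ⟨t, ht⟩ : ∃ t : Fin (n + 1) → Bool, t = fun i => decide (0 ≤ a i) := ⟨_, rfl⟩
  have h8 : ∏ t, min 1 (c t) ≤ c t := by
    rw [← Finset.mul_prod_erase _ _ (Finset.mem_univ t)]
    have h5 : ∏ t ∈ Finset.univ.erase t, min 1 (c t) ≤ 1 :=
      Finset.prod_le_one (fun t' _ => (lt_min one_pos (hc t')).le) fun t' _ => min_le_left _ _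
    calc min 1 (c t) * ∏ t ∈ Finset.univ.erase t, min 1 (c t) ≤ min 1 (c t) * 1 :=
          mul_le_mul_of_nonneg_left h5 (lt_min one_pos (hc t)).le
      _ ≤ c t := by rw [mul_one]; exact min_le_right _ _
  have hb : ∀ j, (fun j => (a j).natAbs) j ≠ 0 := fun j => Int.natAbs_ne_zero.2 (ha j)
  have h9 := hcb t (fun j => (a j).natAbs) hb
  rw [← norm_eq_hgt, ← radical_eq] at h9
  have h10 : (fun i => ∑ j, A i j * (sgn t j * ((a j).natAbs : ℝ))) = app A a := by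
    funext i
    unfold app
    refine Finset.sum_congr rfl fun j _ => ?_
    rw [ht, ← sgn_mul]
  rw [h10] at h9
  refine le_trans ?_ h9
  have hn1 : 1 ≤ ‖a‖ := by
    rw [norm_eq_hgt]
    have h3 : 0 < hgt fun j => (a j).natAbs :=
      lt_of_lt_of_le (Nat.pos_of_ne_zero (hb 0)) (le_hgt (fun j => (a j).natAbs) 0)
    exact_mod_cast h3
  have h11 : ‖a‖ ^ ((m : ℝ) - ε) ≤ ‖a‖ ^ ((m : ℝ) - 1 / ((N : ℝ) + 1)) :=
    Real.rpow_le_rpow_of_exponent_le hn1 (by linarith)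
  exact mul_le_mul h8 h11 (by positivity) (hc t).le

/-- the box of matrices with entries at most `M` -/
def box (m n : ℕ) (M : ℝ) : Set (Fin m → Fin n → ℝ) :=
  Set.univ.pi fun _ => Set.univ.pi fun _ => Set.Icc (-M) M

lemma restrict_box (m n : ℕ) (M : ℝ) :
    (volume : Measure (Fin m → Fin n → ℝ)).restrict (box m n M) =
      Measure.pi fun _ : Fin m => Measure.pi fun _ : Fin n => lam M := by
  unfold box lam
  rw [volume_pi, Measure.restrict_pi_pi]
  congr 1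
  funext i
  rw [volume_pi, Measure.restrict_pi_pi]

lemma iUnion_box (m n : ℕ) : ⋃ M : ℕ, box m n M = Set.univ := by
  rw [Set.eq_univ_iff_forall]
  intro A
  obtain ⟨M, hM⟩ := exists_nat_ge ‖A‖
  refine Set.mem_iUnion.2 ⟨M, ?_⟩
  intro i _ j _
  have h1 : |A i j| ≤ ‖A‖ := by
    rw [← Real.norm_eq_abs]
    exact (norm_le_pi_norm (A i) j).trans (norm_le_pi_norm A i)
  rw [Set.mem_Icc, ← abs_le]
  exact h1.trans hM

theorem ae_good (m n : ℕ) (hm : 1 ≤ m) (hn : 1 ≤ n) : ∀ᵐ A : Fin m → Fin n → ℝ, Good A := by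
  obtain ⟨n, rfl⟩ : ∃ k, n = k + 1 := ⟨n - 1, by omega⟩
  have h : ∀ᵐ A ∂((volume : Measure (Fin m → Fin (n + 1) → ℝ)).restrict
      (⋃ M : ℕ, box m (n + 1) M)), Good A := by
    rw [ae_restrict_iUnion_iff]
    intro M
    rw [restrict_box]
    have h1 : ∀ᵐ A ∂(Measure.pi fun _ : Fin m => Measure.pi fun _ : Fin (n + 1) => lam M),
        ∀ N : ℕ, ∀ t : Fin (n + 1) → Bool, {b : Fin (n + 1) → ℕ | (∀ j, b j ≠ 0) ∧
        ‖fun i => ∑ j, A i j * (sgn t j * b j)‖ ^ m * radT b <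
          (hgt b : ℝ) ^ ((m : ℝ) - 1 / ((N : ℝ) + 1))}.Finite := by
      rw [ae_all_iff]
      intro N
      rw [ae_all_iff]
      intro t
      exact ae_finite m n hm M (1 / ((N : ℝ) + 1)) (by positivity) (sgn t) (sgn_abs t)
    have h2 : ∀ᵐ A ∂(Measure.pi fun _ : Fin m => Measure.pi fun _ : Fin (n + 1) => lam M),
        ∀ t : Fin (n + 1) → Bool, ∀ b : Fin (n + 1) → ℕ, (∀ j, b j ≠ 0) →
          0 < ‖fun i => ∑ j, A i j * (sgn t j * b j)‖ := by
      rw [ae_all_iff]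
      intro t
      exact ae_ne_zero m n hm M (sgn t) (sgn_abs t)
    filter_upwards [h1, h2] with A hA1 hA2
    exact good_of A hA1 hA2
  rwa [iUnion_box, Measure.restrict_univ] at h

/-! ## Powers -/

lemma rad_le_of_dvd_pow {x : ℕ} (hx : x ≠ 0) {y : ℕ} (h : y.primeFactors ⊆ x.primeFactors) :
    ∏ p ∈ y.primeFactors, p ≤ x := by
  calc ∏ p ∈ y.primeFactors, p ≤ ∏ p ∈ x.primeFactors, p :=
        Finset.prod_le_prod_of_subset_of_one_le' h fun p hp _ =>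
          (Nat.prime_of_mem_primeFactors hp).one_le
    _ ≤ x := rad_le hx

/-- **Powers.** -/
theorem powers {m n : ℕ} (hn : 1 ≤ n) {A : Fin m → Fin n → ℝ} (hA : Good A) :
    ∀ ε : ℝ, 0 < ε → ∃ c : ℝ, 0 < c ∧ ∀ (x : Fin n → ℤ) (p : Fin n → ℕ),
      (∀ j, x j ≠ 0) → (∀ j, 1 ≤ p j) →
      c * ‖fun j => x j ^ p j‖ ^ ((m : ℝ) - ∑ j, 1 / (p j : ℝ) - ε) ≤
        ‖app A fun j => x j ^ p j‖ ^ m := by
  intro ε hε
  obtain ⟨c, hc, h⟩ := hA ε hε
  refine ⟨c, hc, fun x p hx hp => ?_⟩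
  obtain ⟨a, ha⟩ : ∃ a : Fin n → ℤ, a = fun j => x j ^ p j := ⟨_, rfl⟩
  rw [← ha]
  have ha0 : ∀ j, a j ≠ 0 := fun j => by rw [ha]; exact pow_ne_zero _ (hx j)
  have h1 := h a ha0
  have hn0 : 0 < ‖a‖ := by
    have h4 := norm_le_pi_norm a ⟨0, hn⟩
    have h5 : 0 < ‖a ⟨0, hn⟩‖ := norm_pos_iff.2 (ha0 _)
    linarith
  have hrad : (radical a : ℝ) ≤ ‖a‖ ^ (∑ j, 1 / (p j : ℝ)) := by
    have h2 : radical a ≤ ∏ j, (x j).natAbs := by
      unfold radical
      refine rad_le_of_dvd_pow (Finset.prod_ne_zero_iff.2 fun j _ => Int.natAbs_ne_zero.2 (hx j)) ?_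
      rw [natAbs_prod]
      intro q hq
      rw [Nat.mem_primeFactors] at hq ⊢
      refine ⟨hq.1, ?_, Finset.prod_ne_zero_iff.2 fun j _ => Int.natAbs_ne_zero.2 (hx j)⟩
      obtain ⟨j, _, hj⟩ := (hq.1.prime.dvd_finsetProd_iff _).1 hq.2.1
      rw [ha] at hj
      simp only [Int.natAbs_pow] at hj
      exact (hq.1.dvd_of_dvd_pow hj).trans (Finset.dvd_prod_of_mem _ (Finset.mem_univ j))
    have h3 : ((∏ j, (x j).natAbs : ℕ) : ℝ) ≤ ‖a‖ ^ (∑ j, 1 / (p j : ℝ)) := by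
      rw [Nat.cast_prod]
      rw [Real.rpow_sum_of_pos hn0]
      refine Finset.prod_le_prod (fun j _ => Nat.cast_nonneg _) fun j _ => ?_
      have hpj : (0 : ℝ) < p j := by exact_mod_cast hp j
      have h4 : ((x j).natAbs : ℝ) ^ (p j) ≤ ‖a‖ := by
        have h5 := norm_le_pi_norm a j
        rw [ha] at h5
        simp only at h5
        rw [ha]
        refine le_trans (le_of_eq ?_) h5
        rw [Int.norm_eq_abs, Int.cast_pow, abs_pow, Nat.cast_natAbs, Int.cast_abs]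
      calc ((x j).natAbs : ℝ) = (((x j).natAbs : ℝ) ^ (p j)) ^ (1 / (p j : ℝ)) := by
            rw [← Real.rpow_natCast, ← Real.rpow_mul (Nat.cast_nonneg _), one_div,
              mul_inv_cancel₀ hpj.ne', Real.rpow_one]
        _ ≤ ‖a‖ ^ (1 / (p j : ℝ)) := Real.rpow_le_rpow (by positivity) h4 (by positivity)
    refine le_trans ?_ h3
    exact_mod_cast h2
  have h6 : c * ‖a‖ ^ ((m : ℝ) - ∑ j, 1 / (p j : ℝ) - ε) * ‖a‖ ^ (∑ j, 1 / (p j : ℝ)) ≤
      ‖app A a‖ ^ m * ‖a‖ ^ (∑ j, 1 / (p j : ℝ)) := by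
    have h7 : c * ‖a‖ ^ ((m : ℝ) - ∑ j, 1 / (p j : ℝ) - ε) * ‖a‖ ^ (∑ j, 1 / (p j : ℝ)) =
        c * ‖a‖ ^ ((m : ℝ) - ε) := by
      rw [mul_assoc, ← Real.rpow_add hn0]
      congr 2
      ring
    rw [h7]
    exact h1.trans (mul_le_mul_of_nonneg_left hrad (by positivity))
  exact le_of_mul_le_mul_right h6 (by positivity)

/-! ## The form of the conjecture -/

theorem abcForm {m n : ℕ} (hm : 1 ≤ m) {A : Fin m → Fin n → ℝ} (hA : Good A) :
    ∀ K ε : ℝ, 0 < ε → ∃ C : ℝ, 0 < C ∧ ∀ a : Fin n → ℤ, (∀ j, a j ≠ 0) → ‖app A a‖ ≤ K →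
      ‖a‖ ≤ C * (radical a : ℝ) ^ (1 / (m : ℝ) + ε) := by
  intro K ε hε
  have hm0 : (0 : ℝ) < m := by exact_mod_cast hm
  obtain ⟨θ, hθ⟩ : ∃ θ : ℝ, θ = 1 / (m : ℝ) + ε := ⟨_, rfl⟩
  have hθ0 : 0 < θ := by rw [hθ]; positivity
  have hε' : 0 < (m : ℝ) - 1 / θ := by
    rw [sub_pos, div_lt_iff₀ hθ0, hθ, mul_add, mul_one_div, div_self hm0.ne']
    have := mul_pos hm0 hε
    linarith
  obtain ⟨c, hc, h⟩ := hA _ hε'
  refine ⟨(|K| ^ m / c) ^ θ + 1, by positivity, fun a ha hle => ?_⟩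
  have h1 := h a ha
  rw [sub_sub_cancel] at h1
  have hrad : (1 : ℝ) ≤ radical a := by
    have h2 : 0 < radical a := by
      unfold radical
      exact rad_pos _
    exact_mod_cast h2
  have h3 : ‖a‖ ^ (1 / θ) ≤ |K| ^ m / c * radical a := by
    rw [div_mul_eq_mul_div, le_div_iff₀ hc, mul_comm (‖a‖ ^ (1 / θ))]
    refine h1.trans ?_
    refine mul_le_mul_of_nonneg_right ?_ (by positivity)
    exact pow_le_pow_left₀ (norm_nonneg _) (hle.trans (le_abs_self K)) m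
  have h4 : ‖a‖ = (‖a‖ ^ (1 / θ)) ^ θ := by
    rw [← Real.rpow_mul (norm_nonneg _), one_div, inv_mul_cancel₀ hθ0.ne', Real.rpow_one]
  rw [← hθ]
  calc ‖a‖ = (‖a‖ ^ (1 / θ)) ^ θ := h4
    _ ≤ (|K| ^ m / c * radical a) ^ θ := Real.rpow_le_rpow (by positivity) h3 hθ0.le
    _ = (|K| ^ m / c) ^ θ * (radical a : ℝ) ^ θ := Real.mul_rpow (by positivity) (by positivity)
    _ ≤ ((|K| ^ m / c) ^ θ + 1) * (radical a : ℝ) ^ θ := by
        have : 0 ≤ (radical a : ℝ) ^ θ := by positivity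
        nlinarith

/-! ## Sharpness -/

/-- rounding to a nonzero integer -/
noncomputable def rnd (y : ℝ) : ℤ := if round y = 0 then 1 else round y

lemma rnd_ne_zero (y : ℝ) : rnd y ≠ 0 := by
  unfold rnd
  split_ifs with h
  · exact one_ne_zero
  · exact h

lemma rnd_sub (y : ℝ) : |(rnd y : ℝ) - y| ≤ 3 / 2 := by
  have h1 := abs_sub_round y
  unfold rnd
  split_ifs with h
  · rw [h, Int.cast_zero, sub_zero] at h1
    rw [Int.cast_one]
    have := abs_sub (1 : ℝ) y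
    calc |1 - y| ≤ |1| + |y| := this
      _ ≤ 3 / 2 := by rw [abs_one]; linarith
  · rw [abs_sub_comm]
    linarith

lemma rnd_abs (y : ℝ) : |(rnd y : ℝ)| ≤ |y| + 3 / 2 := by
  have h1 := rnd_sub y
  calc |(rnd y : ℝ)| = |((rnd y : ℝ) - y) + y| := by congr 1; ring
    _ ≤ |(rnd y : ℝ) - y| + |y| := abs_add_le _ _
    _ ≤ |y| + 3 / 2 := by linarith

lemma radical_two_pow {n : ℕ} (a : Fin n → ℤ) (x : ℤ) (hx : x ≠ 0) (t : ℕ)
    (h : ∏ j, a j = x * 2 ^ t) : (radical a : ℝ) ≤ 2 * |(x : ℝ)| := by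
  have h1 : radical a ≤ 2 * x.natAbs := by
    unfold radical
    have hx' : x.natAbs ≠ 0 := Int.natAbs_ne_zero.2 hx
    refine rad_le_of_dvd_pow (by omega) ?_
    rw [h, Int.natAbs_mul, Int.natAbs_pow]
    intro q hq
    rw [Nat.mem_primeFactors] at hq ⊢
    refine ⟨hq.1, ?_, by omega⟩
    rcases hq.1.dvd_mul.1 hq.2.1 with h2 | h2
    · exact h2.mul_left 2
    · have h3 : q ∣ 2 := hq.1.dvd_of_dvd_pow h2
      exact h3.mul_right _
  have h2 : ((2 * x.natAbs : ℕ) : ℝ) = 2 * |(x : ℝ)| := by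
    push_cast
    rw [Nat.cast_natAbs, Int.cast_abs]
  rw [← h2]
  exact_mod_cast h1

/-- **Sharpness.** -/
theorem sharp (m r : ℕ) (A : Fin m → Fin (m + (r + 1)) → ℝ)
    (hA : (Matrix.of fun i k : Fin m => A i (Fin.castAdd (r + 1) k)).det ≠ 0) :
    ∃ C : ℝ, 0 < C ∧ ∀ N : ℝ, ∃ a : Fin (m + (r + 1)) → ℤ, (∀ j, a j ≠ 0) ∧ N ≤ ‖a‖ ∧
      ‖app A a‖ ≤ C ∧ (radical a : ℝ) ≤ C * ‖a‖ ^ m := by
  classical
  obtain ⟨B, hB⟩ : ∃ B : Matrix (Fin m) (Fin m) ℝ,
    B = Matrix.of fun i k : Fin m => A i (Fin.castAdd (r + 1) k) := ⟨_, rfl⟩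
  rw [← hB] at hA
  have hBu : IsUnit B.det := isUnit_iff_ne_zero.2 hA
  obtain ⟨K, hK⟩ : ∃ K : ℝ, ∀ i j, |A i j| ≤ K := by
    refine ⟨‖A‖, fun i j => ?_⟩
    rw [← Real.norm_eq_abs]
    exact (norm_le_pi_norm (A i) j).trans (norm_le_pi_norm A i)
  obtain ⟨L, hL0, hL⟩ : ∃ L : ℝ, 0 ≤ L ∧ ∀ i j, |B⁻¹ i j| ≤ L := by
    refine ⟨∑ i, ∑ j, |B⁻¹ i j|, by positivity, fun i j => ?_⟩
    calc |B⁻¹ i j| ≤ ∑ j, |B⁻¹ i j| :=
          Finset.single_le_sum (f := fun j => |B⁻¹ i j|) (fun j _ => abs_nonneg _)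
            (Finset.mem_univ j)
      _ ≤ ∑ i, ∑ j, |B⁻¹ i j| :=
          Finset.single_le_sum (f := fun i => ∑ j, |B⁻¹ i j|)
            (fun i _ => Finset.sum_nonneg fun j _ => abs_nonneg _) (Finset.mem_univ i)
  have hK0 : 0 ≤ |K| := abs_nonneg K
  have hK' : ∀ i j, |A i j| ≤ |K| := fun i j => (hK i j).trans (le_abs_self K)
  obtain ⟨Q, hQ⟩ : ∃ Q : ℝ, Q = m * (L * ((r + 1 : ℕ) * |K|)) + 3 / 2 := ⟨_, rfl⟩
  have hQ0 : 0 < Q := by rw [hQ]; positivity
  refine ⟨m * (|K| * (3 / 2)) + 2 * Q ^ m, by positivity, fun N => ?_⟩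
  obtain ⟨t, ht⟩ := pow_unbounded_of_one_lt N (one_lt_two : (1 : ℝ) < 2)
  have ht1 : (1 : ℝ) ≤ 2 ^ t := one_le_pow₀ (by norm_num)
  obtain ⟨v, hv⟩ : ∃ v : Fin (r + 1) → ℤ, v = fun l => if l = 0 then 2 ^ t else 1 := ⟨_, rfl⟩
  have hv0 : ∀ l, v l ≠ 0 := by
    intro l
    rw [hv]
    simp only
    split_ifs
    · positivity
    · exact one_ne_zero
  have hvle : ∀ l, |(v l : ℝ)| ≤ 2 ^ t := by
    intro l
    rw [hv]
    simp only
    split_ifs
    · push_cast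
      rw [abs_of_pos (by positivity)]
    · simpa using ht1
  have hvprod : ∏ l, v l = 2 ^ t := by
    rw [hv, Fin.prod_univ_succ]
    simp [Fin.succ_ne_zero]
  obtain ⟨w, hw⟩ : ∃ w : Fin m → ℝ, w = fun i => ∑ l, A i (Fin.natAdd m l) * (v l : ℝ) := ⟨_, rfl⟩
  have hwle : ∀ i, |w i| ≤ (r + 1 : ℕ) * |K| * 2 ^ t := by
    intro i
    rw [hw]
    simp only
    calc |∑ l, A i (Fin.natAdd m l) * (v l : ℝ)| ≤ ∑ l, |A i (Fin.natAdd m l) * (v l : ℝ)| :=
          Finset.abs_sum_le_sum_abs _ _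
      _ ≤ ∑ _l : Fin (r + 1), |K| * 2 ^ t := by
          refine Finset.sum_le_sum fun l _ => ?_
          rw [abs_mul]
          exact mul_le_mul (hK' _ _) (hvle l) (abs_nonneg _) hK0
      _ = (r + 1 : ℕ) * |K| * 2 ^ t := by
          rw [Finset.sum_const, Finset.card_univ, Fintype.card_fin, nsmul_eq_mul, mul_assoc]
  obtain ⟨y, hy⟩ : ∃ y : Fin m → ℝ, y = -(B⁻¹.mulVec w) := ⟨_, rfl⟩
  have hyle : ∀ k, |y k| ≤ m * (L * ((r + 1 : ℕ) * |K|)) * 2 ^ t := by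
    intro k
    rw [hy, Pi.neg_apply, abs_neg, Matrix.mulVec, dotProduct]
    calc |∑ i, B⁻¹ k i * w i| ≤ ∑ i, |B⁻¹ k i * w i| := Finset.abs_sum_le_sum_abs _ _
      _ ≤ ∑ _i : Fin m, L * ((r + 1 : ℕ) * |K| * 2 ^ t) := by
          refine Finset.sum_le_sum fun i _ => ?_
          rw [abs_mul]
          exact mul_le_mul (hL _ _) (hwle i) (abs_nonneg _) hL0
      _ = m * (L * ((r + 1 : ℕ) * |K|)) * 2 ^ t := by
          rw [Finset.sum_const, Finset.card_univ, Fintype.card_fin, nsmul_eq_mul]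
          ring
  have hBy : B.mulVec y = -w := by
    rw [hy, Matrix.mulVec_neg, Matrix.mulVec_mulVec, Matrix.mul_nonsing_inv _ hBu,
      Matrix.one_mulVec]
  obtain ⟨u, hu⟩ : ∃ u : Fin m → ℤ, u = fun k => rnd (y k) := ⟨_, rfl⟩
  have hu0 : ∀ k, u k ≠ 0 := fun k => by rw [hu]; exact rnd_ne_zero _
  have hule : ∀ k, |(u k : ℝ)| ≤ Q * 2 ^ t := by
    intro k
    rw [hu, hQ]
    simp only
    refine (rnd_abs (y k)).trans ?_
    have := hyle k
    nlinarith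
  obtain ⟨a, ha⟩ : ∃ a : Fin (m + (r + 1)) → ℤ, a = Fin.append u v := ⟨_, rfl⟩
  have hal : ∀ k, a (Fin.castAdd (r + 1) k) = u k := fun k => by rw [ha, Fin.append_left]
  have har : ∀ l, a (Fin.natAdd m l) = v l := fun l => by rw [ha, Fin.append_right]
  have hnorm : (2 : ℝ) ^ t ≤ ‖a‖ := by
    have h1 := norm_le_pi_norm a (Fin.natAdd m 0)
    rw [har, hv] at h1
    simp only [if_true] at h1
    refine le_trans (le_of_eq ?_) h1
    rw [Int.norm_eq_abs]
    push_cast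
    rw [abs_of_pos (by positivity)]
  refine ⟨a, ?_, ht.le.trans hnorm, ?_, ?_⟩
  · intro j
    refine Fin.addCases (fun k => ?_) (fun l => ?_) j
    · rw [hal]; exact hu0 k
    · rw [har]; exact hv0 l
  · have h1 : ‖app A a‖ ≤ m * (|K| * (3 / 2)) := by
      rw [pi_norm_le_iff_of_nonneg (by positivity)]
      intro i
      rw [Real.norm_eq_abs]
      have h2 : app A a i = ∑ k, B i k * ((u k : ℝ) - y k) := by
        unfold app
        rw [Fin.sum_univ_add]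
        simp only [hal, har]
        have h3 : ∑ l, A i (Fin.natAdd m l) * (v l : ℝ) = w i := by rw [hw]
        have h4 : w i = -∑ k, B i k * y k := by
          have h5 := congrFun hBy i
          rw [Matrix.mulVec, dotProduct, Pi.neg_apply] at h5
          linarith
        rw [h3, h4, ← sub_eq_add_neg, ← Finset.sum_sub_distrib]
        refine Finset.sum_congr rfl fun k _ => ?_
        rw [hB]
        simp only [Matrix.of_apply]
        ring
      rw [h2]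
      calc |∑ k, B i k * ((u k : ℝ) - y k)| ≤ ∑ k, |B i k * ((u k : ℝ) - y k)| :=
            Finset.abs_sum_le_sum_abs _ _
        _ ≤ ∑ _k : Fin m, |K| * (3 / 2) := by
            refine Finset.sum_le_sum fun k _ => ?_
            rw [abs_mul]
            refine mul_le_mul ?_ ?_ (abs_nonneg _) hK0
            · rw [hB]
              exact hK' _ _
            · rw [hu]
              exact rnd_sub _
        _ = m * (|K| * (3 / 2)) := by
            rw [Finset.sum_const, Finset.card_univ, Fintype.card_fin, nsmul_eq_mul]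
    have h6 : 0 ≤ 2 * Q ^ m := by positivity
    linarith
  · have h1 := radical_two_pow a (∏ k, u k) (Finset.prod_ne_zero_iff.2 fun k _ => hu0 k) t (by
      rw [Fin.prod_univ_add]
      simp only [hal, har, hvprod])
    have h2 : |((∏ k, u k : ℤ) : ℝ)| ≤ (Q * 2 ^ t) ^ m := by
      rw [Int.cast_prod, Finset.abs_prod]
      calc ∏ k, |(u k : ℝ)| ≤ ∏ _k : Fin m, (Q * 2 ^ t) :=
            Finset.prod_le_prod (fun k _ => abs_nonneg _) fun k _ => hule k
        _ = (Q * 2 ^ t) ^ m := by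
            rw [Finset.prod_const, Finset.card_univ, Fintype.card_fin]
    have h3 : (Q * 2 ^ t) ^ m ≤ Q ^ m * ‖a‖ ^ m := by
      rw [mul_pow]
      exact mul_le_mul_of_nonneg_left (pow_le_pow_left₀ (by positivity) hnorm m) (by positivity)
    have h4 : 0 ≤ (m * (|K| * (3 / 2)) : ℝ) * ‖a‖ ^ m := by positivity
    calc (radical a : ℝ) ≤ 2 * (Q ^ m * ‖a‖ ^ m) := by linarith
      _ ≤ _ := by linarith

/-- **The metric `n`-term abc theorem.**  For all `m, n ≥ 1` and almost every real `m × n`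
matrix `A`:
(1) for all `K` and `ε > 0` there is `C` such that every tuple `a` of `n` nonzero integers with
`‖A a‖ ≤ K` satisfies `max |a_j| ≤ C * rad (a_1 ⋯ a_n) ^ (1 / m + ε)`;
(2) for every `ε > 0` there is `c > 0` with `c (max |a_j|) ^ (m - ε) ≤ ‖A a‖ ^ m rad (a_1 ⋯ a_n)`
for every tuple of nonzero integers;
(3) for every `ε > 0` there is `c > 0` such that for all nonzero integers `x_j` and ALL exponents
`p_j ≥ 1`, with `X = max |x_j ^ p_j|`,
`c X ^ (m - ∑ 1 / p_j - ε) ≤ ‖A (x_1 ^ p_1, …, x_n ^ p_n)‖ ^ m`.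
(4) The exponent is optimal: for every real `m × (m + r + 1)` matrix whose first `m` columns are
linearly independent there are `C` and tuples `a` of nonzero integers of arbitrarily large norm
with `‖A a‖ ≤ C` and `rad (a_1 ⋯ a_n) ≤ C (max |a_j|) ^ m`.
All norms are maximum norms. -/
theorem result :
    (∀ m n : ℕ, 1 ≤ m → 1 ≤ n → ∀ᵐ A : Fin m → Fin n → ℝ,
      (∀ K ε : ℝ, 0 < ε → ∃ C : ℝ, 0 < C ∧ ∀ a : Fin n → ℤ, (∀ j, a j ≠ 0) → ‖app A a‖ ≤ K →
        ‖a‖ ≤ C * (radical a : ℝ) ^ (1 / (m : ℝ) + ε)) ∧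
      (∀ ε : ℝ, 0 < ε → ∃ c : ℝ, 0 < c ∧ ∀ a : Fin n → ℤ, (∀ j, a j ≠ 0) →
        c * ‖a‖ ^ ((m : ℝ) - ε) ≤ ‖app A a‖ ^ m * radical a) ∧
      (∀ ε : ℝ, 0 < ε → ∃ c : ℝ, 0 < c ∧ ∀ (x : Fin n → ℤ) (p : Fin n → ℕ),
        (∀ j, x j ≠ 0) → (∀ j, 1 ≤ p j) →
        c * ‖fun j => x j ^ p j‖ ^ ((m : ℝ) - ∑ j, 1 / (p j : ℝ) - ε) ≤
          ‖app A fun j => x j ^ p j‖ ^ m)) ∧
    (∀ (m r : ℕ) (A : Fin m → Fin (m + (r + 1)) → ℝ),
      (Matrix.of fun i k : Fin m => A i (Fin.castAdd (r + 1) k)).det ≠ 0 →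
      ∃ C : ℝ, 0 < C ∧ ∀ N : ℝ, ∃ a : Fin (m + (r + 1)) → ℤ, (∀ j, a j ≠ 0) ∧ N ≤ ‖a‖ ∧
        ‖app A a‖ ≤ C ∧ (radical a : ℝ) ≤ C * ‖a‖ ^ m) := by
  refine ⟨fun m n hm hn => ?_, sharp⟩
  filter_upwards [ae_good m n hm hn] with A hA
  exact ⟨abcForm hm hA, hA, powers hn hA⟩

end Pool.Agent.Results.MP_a95293_nt.MetricNTerm
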