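import Pool.Agent.Q204.NT.Main

/-!
# The n-term abc conjecture for products of powers of numbers with small digits

The terms of the vanishing sum are small multiples of products of powers of numbers `F_i(t)` with small
digits (of either sign) in a large base `t` and with last digit `0`, `1` or `-1`; the exponents may be as
large as a power of `t`, so that the terms may be as large as the exponential function of a power of
the radical.

Proof. The relation between the values at `t` comes from an identity between the polynomials: the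
coefficients of the difference of the two sides up to `t ^ J` are smaller than `t`, so they vanish, and
sums of power products which vanish to a large order at zero vanish (library `Pool.Agent.Q103.SD`
by helper103; idea and plan by helper103). The degrees in the identity are bounded by the `n`-term theorem
of Mason and Stothers without vanishing subsums (`Pool.Agent.Y954.U557.bmg_holds`, starting files).
-/

set_option autoImplicit false

namespace Pool.Agent.Results.MP_a95293_nt.SmallDigits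

open Polynomial Finset

/-- the admissible tuples of the problem -/
def Admissible {n : ℕ} (x : Fin n → ℤ) : Prop :=
  (∀ d : ℤ, (∀ i, d ∣ x i) → IsUnit d) ∧ ∑ i, x i = 0 ∧
    ∀ s : Finset (Fin n), s.Nonempty → s ≠ Finset.univ → ∑ i ∈ s, x i ≠ 0

/-- the product of the distinct primes dividing `x` -/
def rad (x : ℤ) : ℕ := ∏ p ∈ x.natAbs.primeFactors, p

/-- the exponent `M_n`; it is `1` for `n = 3` and `3` for `n = 4` -/
def M (n : ℕ) : ℕ := (n - 1) * (n - 2) / 2 * max 1 (n - 3)

/-- the bases `F i` that occur in some term -/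
def used {m n : ℕ} (e : Fin n → Fin m → ℕ) : Finset (Fin m) :=
  Finset.univ.filter (fun i => ∃ k, e k i ≠ 0)

/-- The bases `F_i(t)` are the values of nonconstant polynomials of total degree at most `K` with
coefficients (digits) of absolute value at most `H` and last digit `0`, `1` or `-1`; the coefficients `α k`
are nonzero of absolute value at most `H`, and in each term the sum of the exponents is at most `H`. -/
structure Terms (K : ℕ) (H : ℝ) {m n : ℕ} (F : Fin m → ℤ[X]) (α : Fin n → ℤ)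
    (e : Fin n → Fin m → ℕ) : Prop where
  pos : ∀ i, 0 < (F i).natDegree
  deg : ∑ i, (F i).natDegree ≤ K
  digits : ∀ i j, |((F i).coeff j : ℝ)| ≤ H
  last : ∀ i, (F i).coeff 0 = 0 ∨ (F i).coeff 0 = 1 ∨ (F i).coeff 0 = -1
  ne : ∀ k, α k ≠ 0
  coef : ∀ k, |(α k : ℝ)| ≤ H
  exps : ∀ k, ((∑ i, e k i : ℕ) : ℝ) ≤ H

/-- the terms -/
def term {m n : ℕ} (F : Fin m → ℤ[X]) (α : Fin n → ℤ) (e : Fin n → Fin m → ℕ) (t : ℕ) (k : Fin n) : ℤ :=
  α k * ∏ i, (F i).eval (t : ℤ) ^ e k i

/-- the product of the bases that occur -/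
def bases {m n : ℕ} (F : Fin m → ℤ[X]) (e : Fin n → Fin m → ℕ) (t : ℕ) : ℤ :=
  ∏ i ∈ used e, (F i).eval (t : ℤ)

theorem result (n K : ℕ) (hn : 3 ≤ n) (ε : ℝ) (hε : 0 < ε) :
    ∃ δ : ℝ, 0 < δ ∧ ∃ t₀ : ℕ, ∀ t : ℕ, t₀ ≤ t →
    ∀ (m : ℕ) (F : Fin m → ℤ[X]) (α : Fin n → ℤ) (e : Fin n → Fin m → ℕ),
      Terms K ((t : ℝ) ^ δ) F α e → Admissible (term F α e t) →
      ∑ k, C (α k) * ∏ i, F i ^ e k i = 0 ∧
      ((used e).Nonempty → ∀ k,
        ∑ i, e k i * (F i).natDegree + M n ≤ M n * ∑ i ∈ used e, (F i).natDegree ∧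
        |(term F α e t k : ℝ)| * (t : ℝ) ^ ((M n : ℝ) - ε) ≤ |(bases F e t : ℝ)| ^ M n ∧
        |(term F α e t k : ℝ)| * (t : ℝ) ^ ((M n : ℝ) - ε) * (rad (bases F e t) : ℝ) ^ M n ≤
          |(bases F e t : ℝ)| ^ M n * (rad (∏ j, term F α e t j) : ℝ) ^ M n ∧
        (Squarefree (bases F e t) →
          |(term F α e t k : ℝ)| * (t : ℝ) ^ ((M n : ℝ) - ε) ≤
            (rad (∏ j, term F α e t j) : ℝ) ^ M n)) := by
  obtain ⟨δ₁, hδ₁, hδ₁', t₁, ht₁, h1⟩ := Pool.Agent.Q204.NT.ident n K
  obtain ⟨δ₂, hδ₂, t₂, h2⟩ := Pool.Agent.Q204.NT.sizes n K ε hε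
  refine ⟨min δ₁ δ₂, lt_min hδ₁ hδ₂, max t₁ t₂, ?_⟩
  intro t ht m F α e hS hA
  have htt₁ : t₁ ≤ t := (le_max_left _ _).trans ht
  have htt₂ : t₂ ≤ t := (le_max_right _ _).trans ht
  have ht1 : (1 : ℝ) ≤ t := by exact_mod_cast (show 1 ≤ t by omega)
  have hconv : ∀ δ : ℝ, min δ₁ δ₂ ≤ δ → Pool.Agent.Q204.NT.Dat K ((t : ℝ) ^ δ) F α e := by
    intro δ hδ
    have hle : (t : ℝ) ^ (min δ₁ δ₂) ≤ (t : ℝ) ^ δ := Real.rpow_le_rpow_of_exponent_le ht1 hδ
    exact ⟨hS.pos, hS.deg, fun i j => (hS.digits i j).trans hle, fun i => by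
      rcases hS.last i with h | h | h <;> rw [h] <;> norm_num, hS.ne,
      fun k => (hS.coef k).trans hle, fun k => (hS.exps k).trans hle⟩
  have hD1 := hconv δ₁ (min_le_left _ _)
  have hD2 := hconv δ₂ (min_le_right _ _)
  have hterm : term F α e t = fun k => (Pool.Agent.Q103.SD.PP F (α k) (e k)).eval (t : ℤ) := by
    funext k
    rw [Pool.Agent.Q103.SD.eval_PP]
    rfl
  have hA' : Pool.Agent.Q204.NT.Adm
      (fun k => (Pool.Agent.Q103.SD.PP F (α k) (e k)).eval (t : ℤ)) := by
    rw [← hterm]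
    exact hA
  have hid := h1 t htt₁ m F α e hD1 hA'
  refine ⟨hid, fun hU k => ?_⟩
  have hsize := h2 t htt₂ m F α e hD2 hA' hid hU k
  have htk : (Pool.Agent.Q103.SD.PP F (α k) (e k)).eval (t : ℤ) = term F α e t k := by rw [hterm]
  rw [htk] at hsize
  have hsize' : |(term F α e t k : ℝ)| * (t : ℝ) ^ ((M n : ℝ) - ε) ≤ |(bases F e t : ℝ)| ^ M n := hsize
  -- auxiliary sizes
  obtain ⟨r, hr⟩ : ∃ r : ℝ, r = (t : ℝ) ^ (1 / 2 : ℝ) := ⟨_, rfl⟩
  have ht64 : (64 : ℝ) ≤ t := by exact_mod_cast ht₁.trans htt₁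
  have ht0 : (0 : ℝ) < t := by linarith
  have hrr : r * r = t := by
    rw [hr, ← Real.rpow_add ht0]
    norm_num
  have hr8 : 8 ≤ r := by
    have hr0 : 0 ≤ r := by rw [hr]; positivity
    nlinarith
  have hBr : (t : ℝ) ^ δ₁ ≤ r := by
    rw [hr]
    exact Real.rpow_le_rpow_of_exponent_le (by linarith) hδ₁'
  have hB0 : (0 : ℝ) ≤ (t : ℝ) ^ δ₁ := by positivity
  have hF0 : ∀ i, (F i).eval (t : ℤ) ≠ 0 := by
    intro i h0
    have h3 := (Pool.Agent.Q103.SD.value_size (t := t) (by
      have := ht₁.trans htt₁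
      omega) hB0 (by nlinarith) (hD1.coeff i) (hD1.F0 i)).1
    rw [h0, Int.cast_zero, abs_zero] at h3
    have h4 : (0 : ℝ) < (t : ℝ) ^ (F i).natDegree := by positivity
    linarith
  have hprod : ∀ j, term F α e t j ≠ 0 := fun j =>
    mul_ne_zero (hS.ne j) (Finset.prod_ne_zero_iff.mpr fun i _ => pow_ne_zero _ (hF0 i))
  have hX : ∏ j, term F α e t j ≠ 0 := Finset.prod_ne_zero_iff.mpr fun j _ => hprod j
  have hrad : rad (bases F e t) ≤ rad (∏ j, term F α e t j) := by
    refine Pool.Agent.Q103.SD.rad_le hX fun p hp hpQ => ?_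
    have hpp : Prime (p : ℤ) := Nat.prime_iff_prime_int.mp hp
    unfold bases at hpQ
    obtain ⟨i, hi, hpi⟩ := (hpp.dvd_finsetProd_iff _).mp hpQ
    obtain ⟨j, hj⟩ := (Finset.mem_filter.mp hi).2
    have h5 : (p : ℤ) ∣ term F α e t j := by
      unfold term
      exact Dvd.dvd.mul_left ((hpi.trans (dvd_pow_self _ hj)).trans
        (Finset.dvd_prod_of_mem (fun i => (F i).eval (t : ℤ) ^ e j i) (Finset.mem_univ i))) _
    exact h5.trans (Finset.dvd_prod_of_mem _ (Finset.mem_univ j))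
  have hradR : (rad (bases F e t) : ℝ) ^ M n ≤ (rad (∏ j, term F α e t j) : ℝ) ^ M n :=
    pow_le_pow_left₀ (by positivity) (by exact_mod_cast hrad) _
  refine ⟨?_, hsize', ?_, fun hsq => hsize'.trans ?_⟩
  · exact Pool.Agent.Q204.NT.degrees hD1 hB0 (t := t) (by nlinarith) hA' hid hU k
  · exact mul_le_mul hsize' hradR (by positivity) (by positivity)
  · have hQrad : |(bases F e t : ℝ)| = rad (bases F e t) := by
      have h3 : Squarefree (bases F e t).natAbs := Int.squarefree_natAbs.mpr hsq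
      have h4 : rad (bases F e t) = (bases F e t).natAbs := Nat.prod_primeFactors_of_squarefree h3
      rw [h4, Nat.cast_natAbs]
      push_cast
      rfl
    rw [hQrad]
    exact hradR

end Pool.Agent.Results.MP_a95293_nt.SmallDigits
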