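import Pool.Agent.Q138.PS.WL
import Pool.Agent.Q138.AJ.Ra95293

/-!
# The `n`-term abc conjecture for the tuples close to given points

An admissible `n`-tuple consists of coprime integers with sum zero and no vanishing proper subsum. Let `Y` be a metric space and `p`
any map from the integer tuples to `Y`, for instance `x ↦ (x_1 / x_n, …, x_(n-1) / x_n)` in `ℝ^(n-1)`, or in `ℚ_p^(n-1)`, or in a
product of such spaces. Write `|x| = max |x_j|`.

* Let `M > 0` and `θ > 0`. Outside a set of `z ∈ Y` of Hausdorff dimension at most `(1 - 1 / binom(n, ⌊n/2⌋)) / (M θ)`, for every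
  `M' > M` and every `D` all but finitely many admissible `x` with `dist (p x, z) ≤ D |x| ^ (-θ)` satisfy `|x| ≤ rad(x_1 ⋯ x_n) ^ M'`.
* Outside a set of Hausdorff dimension ZERO, every `z ∈ Y` has the property that for all `θ > 0` and `D` there is `M` such that ALL
  admissible `x` with `dist (p x, z) ≤ D |x| ^ (-θ)` satisfy `|x| ≤ rad(x_1 ⋯ x_n) ^ M`.
-/

set_option autoImplicit false

namespace Pool.Agent.Results.MP_a95293_nt.TuplesNearGivenPoints

open Filter Pool.Agent.Q138.PS Pool.Agent.Q138.AJ.Ra95293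

/-- `|x| = max |x_j|` -/
def size {n : ℕ} (x : Fin n → ℤ) : ℕ := Finset.univ.sup fun j => (x j).natAbs

theorem le_size {n : ℕ} (x : Fin n → ℤ) (i : Fin n) : (|x i| : ℝ) ≤ size x := by
  have h : (x i).natAbs ≤ size x := Finset.le_sup (f := fun j => (x j).natAbs) (Finset.mem_univ i)
  have h2 : ((x i).natAbs : ℝ) ≤ size x := by exact_mod_cast h
  have h3 : ((x i).natAbs : ℝ) = |((x i : ℤ) : ℝ)| := by
    rw [Nat.cast_natAbs]
    push_cast
    rfl
  rwa [h3] at h2

theorem size_le {n : ℕ} (hn : 1 ≤ n) (x : Fin n → ℤ) : ∃ i, (size x : ℝ) = |((x i : ℤ) : ℝ)| := by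
  have : Nonempty (Fin n) := ⟨⟨0, by omega⟩⟩
  obtain ⟨i, -, hi⟩ := Finset.exists_mem_eq_sup (Finset.univ : Finset (Fin n)) Finset.univ_nonempty fun j => (x j).natAbs
  refine ⟨i, ?_⟩
  unfold size
  rw [hi, Nat.cast_natAbs]
  push_cast
  rfl

theorem rad_pos {n : ℕ} (x : Fin n → ℤ) : 1 ≤ rad x :=
  Finset.prod_pos fun _ hp => (Nat.prime_of_mem_primeFactors hp).pos

/-- the violations of the inequality with exponent `M` -/
def Bad (n : ℕ) (M : ℝ) : Set (Fin n → ℤ) := {x | Admissible x ∧ ((rad x : ℕ) : ℝ) ^ M < size x}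

theorem bad_mono {n : ℕ} (M M' : ℝ) (h : M ≤ M') : Bad n M' ⊆ Bad n M := by
  rintro x ⟨h1, h2⟩
  exact ⟨h1, (Real.rpow_le_rpow_of_exponent_le (by exact_mod_cast rad_pos x) h).trans_lt h2⟩

theorem bad_eq {n : ℕ} (hn : 1 ≤ n) (M T : ℝ) : {x | x ∈ Bad n M ∧ (size x : ℝ) ≤ T} = exceptions n M T := by
  ext x
  constructor
  · rintro ⟨⟨h1, h2⟩, h3⟩
    obtain ⟨i, hi⟩ := size_le hn x
    exact ⟨h1, fun j => (le_size x j).trans h3, i, hi ▸ h2⟩
  · rintro ⟨h1, h2, i, h3⟩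
    obtain ⟨j, hj⟩ := size_le hn x
    exact ⟨⟨h1, h3.trans_le (le_size x i)⟩, hj ▸ h2 j⟩

theorem size_pos {n : ℕ} (hn : 3 ≤ n) {x : Fin n → ℤ} (hx : Admissible x) : 1 ≤ size x := by
  by_contra h
  have hn0 : 0 < n := by omega
  have h0 : size x = 0 := by omega
  have h1 : x ⟨0, hn0⟩ = 0 := by
    have h2 := le_size x ⟨0, hn0⟩
    rw [h0] at h2
    have h3 : |((x ⟨0, hn0⟩ : ℤ) : ℝ)| ≤ 0 := by simpa using h2
    have h4 := abs_eq_zero.1 (le_antisymm h3 (abs_nonneg _))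
    exact_mod_cast h4
  refine hx.2.2 {⟨0, hn0⟩} (Finset.singleton_nonempty _) ?_ (by simpa using h1)
  intro h5
  have h6 := congrArg Finset.card h5
  rw [Finset.card_singleton, Finset.card_univ, Fintype.card_fin] at h6
  omega

/-- the radical of an admissible tuple is at least `2` -/
theorem two_le_rad {n : ℕ} (hn : 3 ≤ n) {x : Fin n → ℤ} (hx : Admissible x) : 2 ≤ rad x := by
  classical
  by_contra h
  have h1 : rad x = 1 := le_antisymm (Nat.lt_succ_iff.1 (not_le.1 h)) (rad_pos x)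
  have hne : ∀ i, x i ≠ 0 := by
    intro i h0
    refine hx.2.2 {i} (Finset.singleton_nonempty _) ?_ (by simpa using h0)
    intro h5
    have h6 := congrArg Finset.card h5
    rw [Finset.card_singleton, Finset.card_univ, Fintype.card_fin] at h6
    omega
  have hprod : (∏ i, x i).natAbs ≠ 0 := Int.natAbs_ne_zero.2 (Finset.prod_ne_zero_iff.2 fun i _ => hne i)
  have h2 : (∏ i, x i).natAbs = 1 := by
    by_contra h3
    obtain ⟨q, hq, hqd⟩ := Nat.exists_prime_and_dvd h3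
    have h4 : q ∣ rad x := Finset.dvd_prod_of_mem (fun p => p) (Nat.mem_primeFactors.2 ⟨hq, hqd, hprod⟩)
    rw [h1] at h4
    exact hq.one_lt.ne' (Nat.dvd_one.1 h4)
  have h3 : ∀ i, (x i).natAbs = 1 := by
    intro i
    have h4 : (x i).natAbs ∣ (∏ i, x i).natAbs := Int.natAbs_dvd_natAbs.2 (Finset.dvd_prod_of_mem _ (Finset.mem_univ i))
    rw [h2] at h4
    exact Nat.dvd_one.1 h4
  -- two of the signs are opposite
  have h4 : ∃ i j, x i = 1 ∧ x j = -1 := by
    by_contra hcon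
    push Not at hcon
    have h5 : (∀ i, x i = 1) ∨ ∀ i, x i = -1 := by
      by_cases h6 : ∃ i, x i = 1
      · obtain ⟨i, hi⟩ := h6
        left
        intro j
        rcases Int.natAbs_eq_iff.1 (h3 j) with h7 | h7
        · exact_mod_cast h7
        · exact absurd (by exact_mod_cast h7) (hcon i j hi)
      · push Not at h6
        right
        intro j
        rcases Int.natAbs_eq_iff.1 (h3 j) with h7 | h7
        · exact absurd (by exact_mod_cast h7) (h6 j)
        · exact_mod_cast h7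
    have h6 := hx.2.1
    rcases h5 with h5 | h5
    · simp only [h5, Finset.sum_const, Finset.card_univ, Fintype.card_fin, nsmul_eq_mul, mul_one] at h6
      have : n = 0 := by exact_mod_cast h6
      omega
    · simp only [h5, Finset.sum_const, Finset.card_univ, Fintype.card_fin, nsmul_eq_mul] at h6
      have : n = 0 := by omega
      omega
  obtain ⟨i, j, hi, hj⟩ := h4
  have hij : i ≠ j := by
    rintro rfl
    omega
  refine hx.2.2 {i, j} ⟨i, by simp⟩ ?_ ?_
  · intro h5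
    have h6 := congrArg Finset.card h5
    rw [Finset.card_pair hij, Finset.card_univ, Fintype.card_fin] at h6
    omega
  · rw [Finset.sum_pair hij, hi, hj]
    norm_num

/-- **Theorem.** -/
theorem result (n : ℕ) (hn : 3 ≤ n) {Y : Type} [MetricSpace Y] [MeasurableSpace Y] [BorelSpace Y] (p : (Fin n → ℤ) → Y) :
    (∀ M θ : ℝ, 0 < M → 0 < θ → ∃ Z : Set Y,
      dimH Z ≤ ENNReal.ofReal ((1 - 1 / (n.choose (n / 2) : ℝ)) / (M * θ)) ∧ ∀ z, z ∉ Z → ∀ M' D : ℝ, M < M' →
        {x | Admissible x ∧ ((rad x : ℕ) : ℝ) ^ M' < size x ∧ dist (p x) z ≤ D * (size x : ℝ) ^ (-θ)}.Finite) ∧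
    ∃ Z : Set Y, dimH Z = 0 ∧ ∀ z, z ∉ Z → ∀ θ D : ℝ, 0 < θ → ∃ M : ℝ, ∀ x : Fin n → ℤ, Admissible x →
      dist (p x) z ≤ D * (size x : ℝ) ^ (-θ) → ∀ i, (|x i| : ℝ) ≤ ((rad x : ℕ) : ℝ) ^ M := by
  have hch : (1 : ℝ) ≤ n.choose (n / 2) := by
    exact_mod_cast Nat.choose_pos (Nat.div_le_self n 2)
  have hκ : 0 ≤ 1 - 1 / (n.choose (n / 2) : ℝ) := by
    rw [sub_nonneg, div_le_one (by linarith)]
    exact hch
  have hc : ∀ M δ : ℝ, 0 < M → 0 < δ → ∃ C T₀ : ℝ, ∀ T, T₀ ≤ T → {x | x ∈ Bad n M ∧ (size x : ℝ) ≤ T}.Finite ∧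
      (({x | x ∈ Bad n M ∧ (size x : ℝ) ≤ T}).ncard : ℝ) ≤ C * T ^ ((1 - 1 / (n.choose (n / 2) : ℝ)) / M + δ) := by
    intro M δ hM hδ
    obtain ⟨C, h⟩ := (Pool.Agent.Q138.AJ.Ra95293.result n hn M δ hM hδ).1
    refine ⟨C, 1, fun T hT => ?_⟩
    rw [bad_eq (by omega)]
    exact h T hT
  refine ⟨?_, ?_⟩
  · intro M θ hM hθ
    obtain ⟨Z, hZ, hz⟩ := fin_above p (Bad n) (fun x => (size x : ℝ)) _ hκ (fun M M' _ h => bad_mono M M' h) hc M θ hM hθ
    refine ⟨Z, hZ, fun z hzZ M' D hMM => (hz z hzZ M' D hMM).subset ?_⟩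
    rintro x ⟨h1, h2, h3⟩
    exact ⟨⟨h1, h2⟩, h3⟩
  · obtain ⟨Z, hZ, hz⟩ := fin_zero p (Bad n) (fun x => max 1 (size x : ℝ)) _ hκ (fun M M' _ h => bad_mono M M' h)
      (fun M δ hM hδ => by
        obtain ⟨C, T₀, h⟩ := hc M δ hM hδ
        refine ⟨C, max T₀ 1, fun T hT => ?_⟩
        obtain ⟨h1, h2⟩ := h T ((le_max_left _ _).trans hT)
        have hT1 : 1 ≤ T := (le_max_right _ _).trans hT
        have e : {x | x ∈ Bad n M ∧ max 1 (size x : ℝ) ≤ T} = {x | x ∈ Bad n M ∧ (size x : ℝ) ≤ T} := by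
          ext x
          constructor
          · rintro ⟨h3, h4⟩
            exact ⟨h3, (le_max_right _ _).trans h4⟩
          · rintro ⟨h3, h4⟩
            exact ⟨h3, max_le hT1 h4⟩
        rw [e]
        exact ⟨h1, h2⟩) (fun x => le_max_left _ _)
    refine ⟨Z, hZ, fun z hzZ θ D hθ => ?_⟩
    obtain ⟨M, hM0, hfin⟩ := hz z hzZ θ D hθ
    -- finitely many exceptions are removed by a larger exponent
    set F := hfin.toFinset with hF
    set L : ℝ := ∑ x ∈ F, (size x : ℝ) with hL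
    have hL0 : 0 ≤ L := Finset.sum_nonneg fun _ _ => Nat.cast_nonneg _
    obtain ⟨k, hk⟩ := pow_unbounded_of_one_lt L (by norm_num : (1 : ℝ) < 2)
    refine ⟨max M k, fun x hx hd i => ?_⟩
    have hr2 : (2 : ℝ) ≤ (rad x : ℕ) := by exact_mod_cast two_le_rad hn hx
    have hs1 : (1 : ℝ) ≤ size x := by exact_mod_cast size_pos hn hx
    refine (le_size x i).trans ?_
    by_cases hb : ((rad x : ℕ) : ℝ) ^ M < size x
    · have hmem : x ∈ F := by
        rw [hF, Set.Finite.mem_toFinset]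
        refine ⟨⟨hx, hb⟩, ?_⟩
        simp only [max_eq_right hs1]
        exact hd
      have h1 : (size x : ℝ) ≤ L := Finset.single_le_sum (f := fun x => (size x : ℝ)) (fun _ _ => Nat.cast_nonneg _) hmem
      calc (size x : ℝ) ≤ L := h1
        _ ≤ 2 ^ k := hk.le
        _ = (2 : ℝ) ^ (k : ℝ) := (Real.rpow_natCast _ _).symm
        _ ≤ ((rad x : ℕ) : ℝ) ^ (k : ℝ) := Real.rpow_le_rpow (by norm_num) hr2 (Nat.cast_nonneg _)
        _ ≤ ((rad x : ℕ) : ℝ) ^ (max M k) := Real.rpow_le_rpow_of_exponent_le (by linarith) (le_max_right _ _)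
    · push Not at hb
      exact hb.trans (Real.rpow_le_rpow_of_exponent_le (by linarith) (le_max_left _ _))

end Pool.Agent.Results.MP_a95293_nt.TuplesNearGivenPoints
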